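import Mathlib

open Polynomial Finset

namespace Pool.Agent.W204.Reg

variable {k : Type*} [Field k]

/-- the Euler operator `X d/dX` -/
noncomputable def thL : k[X] →ₗ[k] k[X] :=
  (LinearMap.mulLeft k (X : k[X])).comp (derivative : k[X] →ₗ[k] k[X])

lemma thL_apply (f : k[X]) : thL f = X * derivative f := rfl

lemma thL_coeff (f : k[X]) (n : ℕ) : (thL f).coeff n = (n : k) * f.coeff n := by
  rw [thL_apply]
  cases n with
  | zero => simp
  | succ n => rw [coeff_X_mul, coeff_derivative]; push_cast; ring

/-- iterates of the Euler operator -/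
noncomputable def thi (i : ℕ) : k[X] →ₗ[k] k[X] := thL ^ i

lemma thi_zero (f : k[X]) : thi 0 f = f := by simp [thi]

lemma thi_succ (i : ℕ) (f : k[X]) : thi (i + 1) f = thL (thi i f) := by
  simp [thi, pow_succ', Module.End.mul_apply]

lemma thi_coeff (i : ℕ) (f : k[X]) (n : ℕ) : (thi i f).coeff n = (n : k) ^ i * f.coeff n := by
  induction i with
  | zero => simp [thi_zero]
  | succ i ih => rw [thi_succ, thL_coeff, ih, pow_succ']; ring

lemma thi_natDegree_le (i : ℕ) (f : k[X]) {d : ℕ} (h : f.natDegree ≤ d) :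
    (thi i f).natDegree ≤ d := by
  rw [natDegree_le_iff_coeff_eq_zero]
  intro n hn
  rw [thi_coeff, coeff_eq_zero_of_natDegree_lt (by omega), mul_zero]

/-- the Wronskian for the Euler operator; rows are functions -/
noncomputable def wmat {n : ℕ} (g : Fin n → k[X]) : Matrix (Fin n) (Fin n) k[X] :=
  Matrix.of fun j i => thi (i : ℕ) (g j)

lemma coeff_prod_le {ι : Type*} (s : Finset ι) (f : ι → k[X]) (d : ι → ℕ)
    (h : ∀ i ∈ s, (f i).natDegree ≤ d i) :
    (∏ i ∈ s, f i).coeff (∑ i ∈ s, d i) = ∏ i ∈ s, (f i).coeff (d i) := by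
  classical
  induction s using Finset.induction_on with
  | empty => simp
  | insert a s ha ih =>
    rw [Finset.prod_insert ha, Finset.sum_insert ha, Finset.prod_insert ha]
    rw [coeff_mul_add_eq_of_natDegree_le (h a (Finset.mem_insert_self a s)),
      ih (fun i hi => h i (Finset.mem_insert_of_mem hi))]
    refine (natDegree_prod_le _ _).trans ?_
    exact Finset.sum_le_sum (fun i hi => h i (Finset.mem_insert_of_mem hi))

lemma coeff_det_le {n : ℕ} (M : Matrix (Fin n) (Fin n) k[X]) (d : Fin n → ℕ)
    (h : ∀ j i, (M j i).natDegree ≤ d j) :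
    M.det.coeff (∑ j, d j) = (Matrix.of fun j i => (M j i).coeff (d j)).det := by
  rw [Matrix.det_apply', Matrix.det_apply', finsetSum_coeff]
  refine Finset.sum_congr rfl (fun σ _ => ?_)
  have h1 : ((Equiv.Perm.sign σ : ℤ) : k[X]) = C ((Equiv.Perm.sign σ : ℤ) : k) := by simp
  rw [h1, coeff_C_mul]
  congr 1
  have h2 : ∑ j, d j = ∑ j, d (σ j) := (Equiv.sum_comp σ d).symm
  rw [h2, coeff_prod_le _ _ (fun i => d (σ i)) (fun i _ => h _ _)]
  rfl

lemma natDegree_det_le {n : ℕ} (M : Matrix (Fin n) (Fin n) k[X]) (d : Fin n → ℕ)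
    (h : ∀ j i, (M j i).natDegree ≤ d j) : M.det.natDegree ≤ ∑ j, d j := by
  rw [Matrix.det_apply']
  refine natDegree_sum_le_of_forall_le _ _ (fun σ _ => ?_)
  have h1 : ((Equiv.Perm.sign σ : ℤ) : k[X]) = C ((Equiv.Perm.sign σ : ℤ) : k) := by simp
  rw [h1]
  refine (natDegree_C_mul_le _ _).trans ((natDegree_prod_le _ _).trans ?_)
  have h2 : ∑ j, d j = ∑ j, d (σ j) := (Equiv.sum_comp σ d).symm
  rw [h2]
  exact Finset.sum_le_sum (fun i _ => h _ _)

lemma linInd_update {ι : Type*} [Fintype ι] [DecidableEq ι] {V : Type*} [AddCommGroup V] [Module k V]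
    (g : ι → V) (hg : LinearIndependent k g) {j l : ι} (hjl : j ≠ l) (c : k) :
    LinearIndependent k (Function.update g j (g j + c • g l)) := by
  rw [Fintype.linearIndependent_iff] at hg ⊢
  intro a ha
  have h1 : ∑ i, (a i + if i = l then a j * c else 0) • g i = 0 := by
    rw [← ha]
    simp only [add_smul, Finset.sum_add_distrib, ite_smul, zero_smul, Finset.sum_ite_eq',
      Finset.mem_univ, if_true]
    rw [← Finset.add_sum_erase _ _ (Finset.mem_univ j),
      ← Finset.add_sum_erase univ (fun i => a i • Function.update g j (g j + c • g l) i) (Finset.mem_univ j)]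
    have h2 : ∑ x ∈ univ.erase j, a x • Function.update g j (g j + c • g l) x =
        ∑ x ∈ univ.erase j, a x • g x := by
      refine Finset.sum_congr rfl (fun x hx => ?_)
      rw [Function.update_of_ne (Finset.ne_of_mem_erase hx)]
    rw [h2, Function.update_self, smul_add, smul_smul]
    abel
  have h3 := hg _ h1
  have hj : a j = 0 := by
    have := h3 j
    rwa [if_neg hjl, add_zero] at this
  intro i
  have := h3 i
  rw [hj, zero_mul] at this
  simpa using this

/-- The Wronskian of independent polynomials of degree `< p` is nonzero. -/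
theorem wmat_det_ne_zero {p : ℕ} [CharP k p] {n : ℕ} :
    ∀ (N : ℕ) (g : Fin n → k[X]), LinearIndependent k g → (∀ j, (g j).natDegree < p) →
      (∑ j, (g j).natDegree = N) → (wmat g).det ≠ 0 := by
  intro N
  induction N using Nat.strong_induction_on with
  | _ N ih =>
    intro g hg hp hN
    by_cases hinj : Function.Injective (fun j => (g j).natDegree)
    · intro h0
      have h1 := coeff_det_le (wmat g) (fun j => (g j).natDegree)
        (fun j i => thi_natDegree_le _ _ le_rfl)
      rw [h0, coeff_zero] at h1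
      have h2 : (Matrix.of fun j i => (wmat g j i).coeff ((g j).natDegree)) =
          Matrix.of fun j i => (g j).leadingCoeff *
            (Matrix.vandermonde (fun j => (((g j).natDegree : ℕ) : k))) j i := by
        ext j i
        simp only [Matrix.of_apply, wmat, thi_coeff, Matrix.vandermonde_apply, leadingCoeff]
        ring
      rw [h2, Matrix.det_mul_column] at h1
      have h3 : (∏ i, (g i).leadingCoeff) ≠ 0 := by
        rw [Finset.prod_ne_zero_iff]
        intro i _
        rw [leadingCoeff_ne_zero]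
        exact hg.ne_zero i
      have h4 : (Matrix.vandermonde (fun j => (((g j).natDegree : ℕ) : k))).det ≠ 0 := by
        rw [Matrix.det_vandermonde_ne_zero_iff]
        intro a b hab
        apply hinj
        exact CharP.natCast_injOn_Iio k p (hp a) (hp b) hab
      exact (mul_ne_zero h3 h4) h1.symm
    · simp only [Function.Injective, not_forall] at hinj
      obtain ⟨j, l, hd, hjl⟩ := hinj
      have hlc : (g l).leadingCoeff ≠ 0 := leadingCoeff_ne_zero.mpr (hg.ne_zero l)
      set c : k := -((g j).leadingCoeff / (g l).leadingCoeff) with hc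
      set g' := Function.update g j (g j + c • g l) with hg'
      have hind : LinearIndependent k g' := linInd_update g hg hjl c
      have hcoef : (g j + c • g l).coeff (g j).natDegree = 0 := by
        rw [coeff_add, coeff_smul, smul_eq_mul]
        have : (g l).coeff (g j).natDegree = (g l).leadingCoeff := by
          rw [leadingCoeff, ← hd]
        rw [this, hc, neg_mul, div_mul_cancel₀ _ hlc, leadingCoeff]
        ring
      have hle : (g j + c • g l).natDegree ≤ (g j).natDegree := by
        refine (natDegree_add_le _ _).trans (max_le le_rfl ?_)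
        refine (natDegree_smul_le _ _).trans ?_
        exact le_of_eq hd.symm
      have hne : g j + c • g l ≠ 0 := by
        have := hind.ne_zero j
        rwa [hg', Function.update_self] at this
      have hlt : (g j + c • g l).natDegree < (g j).natDegree := by
        rcases lt_or_eq_of_le hle with h | h
        · exact h
        · exfalso
          rw [← h] at hcoef
          exact hne (leadingCoeff_eq_zero.mp hcoef)
      have hdet : (wmat g').det = (wmat g).det := by
        have h5 : wmat g' = (wmat g).updateRow j ((wmat g) j + (C c) • (wmat g) l) := by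
          ext a b : 1
          by_cases haj : a = j
          · subst haj
            simp only [wmat, hg', Matrix.of_apply, Function.update_self, Matrix.updateRow_self,
              Pi.add_apply, Pi.smul_apply, map_add, map_smul]
            rw [smul_eq_C_mul, smul_eq_mul]
          · simp only [wmat, hg', Matrix.of_apply, Function.update_of_ne haj, Matrix.updateRow_ne haj]
        rw [h5, Matrix.det_updateRow_add_smul_self _ hjl]
      rw [← hdet]
      refine ih (∑ i, (g' i).natDegree) ?_ g' hind ?_ rfl
      · rw [← hN]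
        refine Finset.sum_lt_sum (fun i _ => ?_) ⟨j, Finset.mem_univ j, ?_⟩
        · by_cases hij : i = j
          · subst hij; rw [hg', Function.update_self]; exact hle
          · rw [hg', Function.update_of_ne hij]
        · rw [hg', Function.update_self]; exact hlt
      · intro i
        by_cases hij : i = j
        · subst hij; rw [hg', Function.update_self]; exact hle.trans_lt (hp i)
        · rw [hg', Function.update_of_ne hij]; exact hp i

lemma X_pow_dvd_thi (a : ℕ) (f : k[X]) (h : X ^ a ∣ f) (i : ℕ) : X ^ a ∣ thi i f := by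
  rw [X_pow_dvd_iff] at h ⊢
  intro d hd
  rw [thi_coeff, h d hd, mul_zero]

lemma X1_pow_dvd_thi (b : ℕ) (f : k[X]) (h : (X + 1) ^ b ∣ f) (i : ℕ) :
    (X + 1) ^ b ∣ (X + 1) ^ i * thi i f := by
  induction i with
  | zero => simpa [thi_zero] using h
  | succ i ih =>
    rw [thi_succ, thL_apply]
    set h' := thi i f
    obtain ⟨u, hu⟩ := ih
    have h1 : derivative ((X + 1 : k[X]) ^ i * h') = derivative ((X + 1 : k[X]) ^ b * u) := by rw [hu]
    rw [derivative_mul, derivative_mul, derivative_pow, derivative_pow] at h1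
    simp only [derivative_add, derivative_X, derivative_one, add_zero, mul_one] at h1
    have h2 : (X + 1 : k[X]) ^ (i + 1) * derivative h' =
        (X + 1) * (C (b : k) * (X + 1) ^ (b - 1) * u + (X + 1) ^ b * derivative u)
          - (X + 1) * (C (i : k) * (X + 1) ^ (i - 1) * h') := by
      rw [← h1]; ring
    have h3 : (X + 1 : k[X]) * (C (i : k) * (X + 1) ^ (i - 1) * h') = C (i : k) * ((X + 1) ^ i * h') := by
      cases i with
      | zero => simp
      | succ i => simp only [Nat.add_sub_cancel]; rw [pow_succ (X + 1 : k[X]) i]; ring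
    have h4 : (X + 1 : k[X]) * (C (b : k) * (X + 1) ^ (b - 1) * u) = C (b : k) * ((X + 1) ^ b * u) := by
      cases b with
      | zero => simp
      | succ b => simp only [Nat.add_sub_cancel]; rw [pow_succ (X + 1 : k[X]) b]; ring
    have h5 : (X + 1 : k[X]) ^ (i + 1) * (X * derivative h') =
        (X + 1) ^ b * (X * (C (b : k) * u + (X + 1) * derivative u - C (i : k) * u)) := by
      calc (X + 1 : k[X]) ^ (i + 1) * (X * derivative h') = X * ((X + 1 : k[X]) ^ (i + 1) * derivative h') := by ring
        _ = X * ((X + 1) * (C (b : k) * (X + 1) ^ (b - 1) * u) + (X + 1) * ((X + 1) ^ b * derivative u)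
          - (X + 1) * (C (i : k) * (X + 1) ^ (i - 1) * h')) := by rw [h2]; ring
        _ = _ := by rw [h3, h4, hu]; ring
    rw [h5]
    exact dvd_mul_right _ _

lemma X_dvd_det {n : ℕ} (g : Fin n → k[X]) (a : Fin n → ℕ) (h : ∀ j, X ^ (a j) ∣ g j) :
    X ^ (∑ j, a j) ∣ (wmat g).det := by
  have h1 : ∀ j i : Fin n, ∃ u, wmat g j i = X ^ (a j) * u := fun j i =>
    X_pow_dvd_thi (a j) (g j) (h j) i
  choose u hu using h1
  have h2 : wmat g = Matrix.of fun j i => X ^ (a j) * (Matrix.of u) j i := by
    ext j i : 1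
    exact hu j i
  rw [h2, Matrix.det_mul_column, Finset.prod_pow_eq_pow_sum]
  exact dvd_mul_right _ _

lemma X1_dvd_det {n : ℕ} (g : Fin n → k[X]) (b : Fin n → ℕ) (h : ∀ j, (X + 1) ^ (b j) ∣ g j) :
    (X + 1) ^ (∑ j, b j) ∣ (X + 1) ^ (n * (n - 1) / 2) * (wmat g).det := by
  have h1 : ∀ j i : Fin n, ∃ u, (X + 1) ^ (i : ℕ) * wmat g j i = (X + 1) ^ (b j) * u := fun j i =>
    X1_pow_dvd_thi (b j) (g j) (h j) i
  choose u hu using h1
  have h3 : (Matrix.of fun j (i : Fin n) => (X + 1 : k[X]) ^ (i : ℕ) * wmat g j i) =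
      Matrix.of fun j i => (X + 1) ^ (b j) * (Matrix.of u) j i := by
    ext j i : 1
    exact hu j i
  have h4 := Matrix.det_mul_row (fun i : Fin n => (X + 1 : k[X]) ^ (i : ℕ)) (wmat g)
  rw [h3, Matrix.det_mul_column, Finset.prod_pow_eq_pow_sum, Finset.prod_pow_eq_pow_sum,
    Fin.sum_univ_eq_sum_range (fun i => i) n, Finset.sum_range_id] at h4
  rw [← h4]
  exact dvd_mul_right _ _

/-- the family with one member replaced by the dependent function -/
noncomputable def fam {n : ℕ} {α : Type*} (g : Fin n → α) (g0 : α) : Option (Fin n) → Fin n → α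
  | none => g
  | some j => Function.update g j g0

lemma fam_sum {n : ℕ} (a : Fin n → ℕ) (a0 : ℕ) (l : Option (Fin n)) :
    (∑ j, fam a a0 l j) + l.elim a0 a = (∑ j, a j) + a0 := by
  cases l with
  | none => simp [fam]
  | some j =>
    simp only [fam, Option.elim]
    rw [← Finset.add_sum_erase _ _ (Finset.mem_univ j),
      ← Finset.add_sum_erase univ a (Finset.mem_univ j), Function.update_self]
    have : ∑ x ∈ univ.erase j, Function.update a j a0 x = ∑ x ∈ univ.erase j, a x := by
      refine Finset.sum_congr rfl (fun x hx => ?_)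
      rw [Function.update_of_ne (Finset.ne_of_mem_erase hx)]
    rw [this]
    ring

lemma fam_det {n : ℕ} (g : Fin n → k[X]) (g0 : k[X]) (μ : Fin n → k) (hμ : ∀ j, μ j ≠ 0)
    (h0 : g0 = ∑ j, μ j • g j) (l : Option (Fin n)) :
    ∃ u : k, u ≠ 0 ∧ (wmat (fam g g0 l)).det = C u * (wmat g).det := by
  cases l with
  | none => exact ⟨1, one_ne_zero, by simp [fam]⟩
  | some j =>
    refine ⟨μ j, hμ j, ?_⟩
    have h1 := Matrix.det_updateRow_sum (wmat g) j (fun i => C (μ i))
    rw [smul_eq_mul] at h1
    rw [← h1]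
    congr 1
    ext a b : 1
    by_cases haj : a = j
    · subst haj
      simp only [wmat, fam, Matrix.of_apply, Function.update_self, Matrix.updateRow_self]
      rw [h0, map_sum]
      simp only [Finset.sum_apply, Pi.smul_apply]
      refine Finset.sum_congr rfl (fun x _ => ?_)
      rw [map_smul, smul_eq_C_mul]
      rfl
    · simp only [wmat, fam, Matrix.of_apply, Function.update_of_ne haj, Matrix.updateRow_ne haj]

theorem circuit_ineq {p : ℕ} [CharP k p] {n : ℕ} (g : Fin n → k[X]) (hg : LinearIndependent k g)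
    (a b : Fin n → ℕ) (a0 b0 : ℕ) (hgf : ∀ j, g j = X ^ (a j) * (X + 1) ^ (b j))
    (hp : ∀ j, a j + b j < p) (μ : Fin n → k) (hμ : ∀ j, μ j ≠ 0)
    (h0 : X ^ a0 * (X + 1) ^ b0 = ∑ j, μ j • g j) (l1 l2 l3 : Option (Fin n)) :
    l3.elim a0 a + l3.elim b0 b ≤ l1.elim a0 a + l2.elim b0 b + n * (n - 1) / 2 := by
  have hdeg : ∀ (x y : ℕ), (X ^ x * (X + 1) ^ y : k[X]).natDegree ≤ x + y := by
    intro x y
    refine natDegree_mul_le.trans (add_le_add (natDegree_X_pow_le x) ?_)
    refine natDegree_pow_le.trans ?_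
    have : (X + 1 : k[X]).natDegree ≤ 1 := by
      refine (natDegree_add_le _ _).trans ?_
      simp
    nlinarith
  have hW : (wmat g).det ≠ 0 := wmat_det_ne_zero (p := p) _ g hg (fun j => by
    rw [hgf j]; exact (hdeg _ _).trans_lt (hp j)) rfl
  set g0 : k[X] := X ^ a0 * (X + 1) ^ b0 with hg0
  have hfam : ∀ l j, fam g g0 l j = X ^ (fam a a0 l j) * (X + 1) ^ (fam b b0 l j) := by
    intro l j
    cases l with
    | none => exact hgf j
    | some i =>
      simp only [fam]
      by_cases hij : j = i
      · subst hij; simp [Function.update_self, hg0]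
      · simp only [Function.update_of_ne hij]; exact hgf j
  -- order at zero
  have hA : X ^ (∑ j, fam a a0 l1 j) ∣ (wmat g).det := by
    obtain ⟨u, hu, hd⟩ := fam_det g g0 μ hμ h0 l1
    have h1 := X_dvd_det (fam g g0 l1) (fam a a0 l1) (fun j => by rw [hfam]; exact dvd_mul_right _ _)
    rw [hd] at h1
    exact (IsUnit.dvd_mul_left (isUnit_C.mpr (isUnit_iff_ne_zero.mpr hu))).mp h1
  have hB : (X + 1) ^ (∑ j, fam b b0 l2 j) ∣ (X + 1) ^ (n * (n - 1) / 2) * (wmat g).det := by
    obtain ⟨u, hu, hd⟩ := fam_det g g0 μ hμ h0 l2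
    have h1 := X1_dvd_det (fam g g0 l2) (fam b b0 l2) (fun j => by rw [hfam]; exact dvd_mul_left _ _)
    rw [hd, mul_left_comm] at h1
    exact (IsUnit.dvd_mul_left (isUnit_C.mpr (isUnit_iff_ne_zero.mpr hu))).mp h1
  have hD : (wmat g).det.natDegree ≤ ∑ j, (fam a a0 l3 j + fam b b0 l3 j) := by
    obtain ⟨u, hu, hd⟩ := fam_det g g0 μ hμ h0 l3
    have h1 := natDegree_det_le (wmat (fam g g0 l3)) (fun j => fam a a0 l3 j + fam b b0 l3 j)
      (fun j i => thi_natDegree_le _ _ (by rw [hfam]; exact hdeg _ _))
    rw [hd, natDegree_C_mul hu] at h1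
    exact h1
  have hcop : IsCoprime ((X : k[X]) ^ (∑ j, fam a a0 l1 j)) ((X + 1) ^ (∑ j, fam b b0 l2 j)) := by
    refine IsCoprime.pow ?_
    exact ⟨-1, 1, by ring⟩
  have hdvd := hcop.mul_dvd (hA.trans (dvd_mul_left _ ((X + 1) ^ (n * (n - 1) / 2)))) hB
  have hX1 : (X + 1 : k[X]) ≠ 0 := by
    have := (monic_X_add_C (1 : k)).ne_zero
    simpa using this
  have hX1d : (X + 1 : k[X]).natDegree = 1 := by
    have := natDegree_X_add_C (1 : k)
    simpa using this
  have hle := natDegree_le_of_dvd hdvd (mul_ne_zero (pow_ne_zero _ hX1) hW)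
  rw [natDegree_mul (pow_ne_zero _ X_ne_zero) (pow_ne_zero _ hX1),
    natDegree_mul (pow_ne_zero _ hX1) hW, natDegree_pow, natDegree_pow, natDegree_pow, hX1d,
    natDegree_X] at hle
  have e1 := fam_sum a a0 l1
  have e2 := fam_sum b b0 l2
  have e3 := fam_sum a a0 l3
  have e4 := fam_sum b b0 l3
  rw [Finset.sum_add_distrib] at hD
  omega

end Pool.Agent.W204.Reg
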