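import Mathlib
import Pool.Agent.W204.Reg.Wron

open Polynomial Finset

namespace Pool.Agent.W204.Reg

variable {k : Type*} [Field k]

lemma exists_min_relation {ι V M : Type*} [Fintype ι] [DecidableEq ι] [AddCommGroup V] [Module k V]
    [AddCommGroup M] [Module k M] (F : ι → V) (φ : (ι → k) →ₗ[k] M) (c0 : ι → k)
    (h : ∑ i, c0 i • F i = 0) (hφ : φ c0 ≠ 0) :
    ∃ c : ι → k, ∑ i, c i • F i = 0 ∧ φ c ≠ 0 ∧ ∀ d : ι → k, ∑ i, d i • F i = 0 →
      (∀ i, c i = 0 → d i = 0) → (∃ i, c i ≠ 0 ∧ d i = 0) → d = 0 := by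
  classical
  set f : (ι → k) → ℕ := fun c => (univ.filter (fun i => c i ≠ 0)).card with hf
  obtain ⟨c, ⟨hc1, hc2⟩, hmin⟩ := WellFounded.has_min (measure f).wf
    {c : ι → k | ∑ i, c i • F i = 0 ∧ φ c ≠ 0} ⟨c0, h, hφ⟩
  refine ⟨c, hc1, hc2, fun d hd1 hd2 hd3 => ?_⟩
  by_contra hd
  by_cases hφd : φ d = 0
  · obtain ⟨j, hj⟩ : ∃ j, d j ≠ 0 := by
      by_contra hcon
      push Not at hcon
      exact hd (funext hcon)
    set e : ι → k := c - (c j / d j) • d with he
    have he1 : ∑ i, e i • F i = 0 := by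
      have : ∑ i, e i • F i = ∑ i, c i • F i - (c j / d j) • ∑ i, d i • F i := by
        rw [Finset.smul_sum, ← Finset.sum_sub_distrib]
        refine Finset.sum_congr rfl (fun i _ => ?_)
        rw [he, Pi.sub_apply, Pi.smul_apply, sub_smul, smul_smul, smul_eq_mul]
      rw [this, hc1, hd1, smul_zero, sub_zero]
    have he2 : φ e ≠ 0 := by
      rw [he, map_sub, map_smul, hφd, smul_zero, sub_zero]; exact hc2
    refine hmin e ⟨he1, he2⟩ ?_
    change f e < f c
    refine Finset.card_lt_card ⟨?_, ?_⟩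
    · intro i hi
      rw [Finset.mem_filter] at hi ⊢
      refine ⟨Finset.mem_univ i, fun h0 => hi.2 ?_⟩
      rw [he, Pi.sub_apply, Pi.smul_apply, h0, hd2 i h0]
      simp
    · intro hsub
      have hj' : j ∈ univ.filter (fun i => c i ≠ 0) := by
        rw [Finset.mem_filter]
        exact ⟨Finset.mem_univ j, fun h0 => hj (hd2 j h0)⟩
      have := hsub hj'
      rw [Finset.mem_filter] at this
      apply this.2
      rw [he, Pi.sub_apply, Pi.smul_apply, smul_eq_mul, div_mul_cancel₀ _ hj, sub_self]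
  · refine hmin d ⟨hd1, hφd⟩ ?_
    change f d < f c
    refine Finset.card_lt_card ⟨?_, ?_⟩
    · intro i hi
      rw [Finset.mem_filter] at hi ⊢
      exact ⟨Finset.mem_univ i, fun h0 => hi.2 (hd2 i h0)⟩
    · intro hsub
      obtain ⟨i, hi1, hi2⟩ := hd3
      have hi' : i ∈ univ.filter (fun i => c i ≠ 0) := by
        rw [Finset.mem_filter]; exact ⟨Finset.mem_univ i, hi1⟩
      have := hsub hi'
      rw [Finset.mem_filter] at this
      exact this.2 hi2

theorem circuit_supp {p : ℕ} [CharP k p] {ι : Type*} [Fintype ι] [DecidableEq ι]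
    (F : ι → k[X]) (A B : ι → ℕ) (hF : ∀ i, F i = X ^ (A i) * (X + 1) ^ (B i))
    (hp : ∀ i, A i + B i < p) (c : ι → k) (hc : ∑ i, c i • F i = 0)
    (hmin : ∀ d : ι → k, ∑ i, d i • F i = 0 →
      (∀ i, c i = 0 → d i = 0) → (∃ i, c i ≠ 0 ∧ d i = 0) → d = 0)
    (i1 i2 i3 : ι) (h1 : c i1 ≠ 0) (h2 : c i2 ≠ 0) (h3 : c i3 ≠ 0) :
    A i3 + B i3 ≤ A i1 + B i2 + (Fintype.card ι - 1) * (Fintype.card ι - 2) / 2 := by
  classical
  set P : ι → Prop := fun i => c i ≠ 0 ∧ i ≠ i1 with hP
  set J := {i // P i} with hJ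
  set n := Fintype.card J with hn
  set e : Fin n ≃ J := (Fintype.equivFin J).symm with he
  have hcard : n ≤ Fintype.card ι - 1 := by
    have h5 : n = (univ.filter P).card := by rw [hn]; exact Fintype.card_subtype P
    rw [h5]
    have h6 : univ.filter P ⊆ univ.erase i1 := by
      intro i hi
      rw [Finset.mem_filter] at hi
      exact Finset.mem_erase.mpr ⟨hi.2.2, Finset.mem_univ i⟩
    have := Finset.card_le_card h6
    rwa [Finset.card_erase_of_mem (Finset.mem_univ i1), Finset.card_univ] at this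
  set g : Fin n → k[X] := fun j => F (e j).1 with hg
  have hindJ : LinearIndependent k (fun i : J => F i.1) := by
    rw [Fintype.linearIndependent_iff]
    intro ν hν
    set d : ι → k := fun i => if h : P i then ν ⟨i, h⟩ else 0 with hd
    have hd1 : ∑ i, d i • F i = 0 := by
      rw [← hν]
      have h7 : ∑ i, d i • F i = ∑ i ∈ univ.filter P, d i • F i := by
        rw [Finset.sum_filter]
        refine Finset.sum_congr rfl (fun i _ => ?_)
        by_cases hPi : P i
        · rw [if_pos hPi]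
        · rw [if_neg hPi, hd]; simp only [dif_neg hPi, zero_smul]
      rw [h7, Finset.sum_subtype (univ.filter P) (p := P) (by intro x; simp)]
      refine Finset.sum_congr rfl (fun i _ => ?_)
      rw [hd]
      simp only [dif_pos i.2]
    have hd0 := hmin d hd1 (fun i hi => by
      rw [hd]; simp only; rw [dif_neg]; intro hPi; exact hPi.1 hi) ⟨i1, h1, by
      rw [hd]; simp only; rw [dif_neg]; intro hPi; exact hPi.2 rfl⟩
    intro i
    have := congrFun hd0 i.1
    rw [hd] at this
    simpa only [dif_pos i.2, Pi.zero_apply] using this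
  have hind : LinearIndependent k g := hindJ.comp e e.injective
  set μ : Fin n → k := fun j => -(c (e j).1 / c i1) with hμ
  have hμ0 : ∀ j, μ j ≠ 0 := fun j => neg_ne_zero.mpr (div_ne_zero (e j).2.1 h1)
  have h0 : X ^ (A i1) * (X + 1) ^ (B i1) = ∑ j, μ j • g j := by
    have h8 : ∑ j, μ j • g j = ∑ i : J, (-(c i.1 / c i1)) • F i.1 := by
      rw [← Equiv.sum_comp e]
    have h9 : ∑ i : J, (-(c i.1 / c i1)) • F i.1 = ∑ i ∈ univ.filter P, (-(c i / c i1)) • F i := by
      rw [Finset.sum_subtype (univ.filter P) (p := P) (by intro x; simp)]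
    have h10 : ∑ i ∈ univ.filter P, (-(c i / c i1)) • F i = ∑ i ∈ univ.erase i1, (-(c i / c i1)) • F i := by
      refine Finset.sum_subset ?_ ?_
      · intro i hi
        rw [Finset.mem_filter] at hi
        exact Finset.mem_erase.mpr ⟨hi.2.2, Finset.mem_univ i⟩
      · intro i hi hi'
        rw [Finset.mem_erase] at hi
        have : c i = 0 := by
          by_contra hcon
          exact hi' (Finset.mem_filter.mpr ⟨Finset.mem_univ i, hcon, hi.1⟩)
        rw [this]; simp
    rw [h8, h9, h10, ← hF i1]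
    have h11 := hc
    rw [← Finset.add_sum_erase _ _ (Finset.mem_univ i1)] at h11
    have h12 : F i1 = (c i1)⁻¹ • (c i1 • F i1) := by rw [smul_smul, inv_mul_cancel₀ h1, one_smul]
    rw [h12, eq_neg_of_add_eq_zero_left h11, smul_neg, Finset.smul_sum, ← Finset.sum_neg_distrib]
    refine Finset.sum_congr rfl (fun i _ => ?_)
    rw [smul_smul, ← neg_smul]
    congr 1
    field_simp
  -- options
  have hopt : ∀ i, c i ≠ 0 → ∃ l : Option (Fin n), l.elim (A i1) (fun j => A (e j).1) = A i ∧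
      l.elim (B i1) (fun j => B (e j).1) = B i := by
    intro i hi
    by_cases hii : i = i1
    · exact ⟨none, by simp [hii], by simp [hii]⟩
    · refine ⟨some (e.symm ⟨i, hi, hii⟩), ?_, ?_⟩ <;> simp
  obtain ⟨l1, e11, e12⟩ := hopt i1 h1
  obtain ⟨l2, e21, e22⟩ := hopt i2 h2
  obtain ⟨l3, e31, e32⟩ := hopt i3 h3
  have key := circuit_ineq (p := p) g hind (fun j => A (e j).1) (fun j => B (e j).1) (A i1) (B i1)
    (fun j => hF _) (fun j => hp _) μ hμ0 h0 l1 l2 l3
  rw [e31, e32, e11, e22] at key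
  refine key.trans (Nat.add_le_add_left ?_ _)
  refine Nat.div_le_div_right ?_
  exact Nat.mul_le_mul hcard (by omega)

lemma three : ∀ t : Fin 3, t ≠ 0 → t ≠ 1 → t = 2 := by decide

lemma homog_indep (A : Finset ℕ) (n : ℕ) (hA : ∀ i ∈ A, i ≤ n) (d : ℕ → k)
    (h : ∑ i ∈ A, d i • (X ^ (n - i) * (X + 1) ^ i : k[X]) = 0) : ∀ i ∈ A, d i = 0 := by
  classical
  by_contra hcon
  push Not at hcon
  obtain ⟨j, hj, hdj⟩ := hcon
  set D := A.filter (fun i => d i ≠ 0) with hD
  have hDne : D.Nonempty := ⟨j, Finset.mem_filter.mpr ⟨hj, hdj⟩⟩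
  set m := D.max' hDne with hm
  have hmD : m ∈ D := Finset.max'_mem D hDne
  rw [hD, Finset.mem_filter] at hmD
  have h1 := congrArg (fun q : k[X] => q.coeff (n - m)) h
  simp only [finsetSum_coeff, coeff_smul, coeff_zero, smul_eq_mul] at h1
  rw [Finset.sum_eq_single m] at h1
  · rw [coeff_X_pow_mul', if_pos le_rfl, Nat.sub_self, coeff_zero_eq_eval_zero] at h1
    simp at h1
    exact hmD.2 h1
  · intro i hi him
    by_cases hdi : d i = 0
    · rw [hdi, zero_mul]
    · have hle : i ≤ m := Finset.le_max' D i (Finset.mem_filter.mpr ⟨hi, hdi⟩)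
      have := hA i hi
      have := hA m hmD.1
      rw [coeff_X_pow_mul', if_neg (by omega), mul_zero]
  · intro hcon
    exact absurd hmD.1 hcon

lemma shift_invariant {p : ℕ} [hp : Fact p.Prime] [CharP k p] (q : k[X]) (hq : q.natDegree < p)
    (h : ∀ z : ℕ, ((z : k) + 1) * q.eval (z : k) = z * q.eval ((z : k) + 1)) :
    ∀ i, 2 ≤ i → q.coeff i = 0 := by
  classical
  have hp2 := hp.out.two_le
  have h1 : ∀ z : ℕ, z < p → q.eval (z : k) = z * q.eval 1 := by
    intro z
    induction z with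
    | zero =>
      intro _
      have := h 0
      simpa using this
    | succ z ih =>
      intro hz
      rcases Nat.eq_zero_or_pos z with h0 | h0
      · subst h0; simp
      · have hz0 : (z : k) ≠ 0 := by
          intro h00
          rw [CharP.cast_eq_zero_iff k p] at h00
          have := Nat.le_of_dvd h0 h00
          omega
        have h2 := h z
        rw [ih (by omega)] at h2
        push_cast
        have h3 : (z : k) * (q.eval ((z : k) + 1) - ((z : k) + 1) * q.eval 1) = 0 := by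
          rw [mul_sub, ← h2]; ring
        rcases mul_eq_zero.mp h3 with h4 | h4
        · exact absurd h4 hz0
        · exact sub_eq_zero.mp h4
  set r : k[X] := q - C (q.eval 1) * X with hr
  have hr0 : r = 0 := by
    by_contra hne
    have hdeg : r.natDegree < p := by
      refine (natDegree_sub_le _ _).trans_lt (max_lt hq ?_)
      refine (natDegree_C_mul_le _ _).trans_lt ?_
      rw [natDegree_X]; omega
    set Z : Finset k := (range p).image (fun j : ℕ => (j : k)) with hZ
    have hZcard : Z.card = p := by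
      rw [hZ, Finset.card_image_of_injOn, Finset.card_range]
      intro a ha b hb hab
      rw [Finset.coe_range] at ha hb
      exact CharP.natCast_injOn_Iio k p ha hb hab
    have hsub : Z ⊆ r.roots.toFinset := by
      intro z hz
      rw [hZ, Finset.mem_image] at hz
      obtain ⟨j, hj, rfl⟩ := hz
      rw [Multiset.mem_toFinset, mem_roots hne, IsRoot, hr]
      simp only [eval_sub, eval_mul, eval_C, eval_X]
      rw [h1 j (Finset.mem_range.mp hj)]
      ring
    have h5 := Finset.card_le_card hsub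
    have h6 := Multiset.toFinset_card_le r.roots
    have h7 := Polynomial.card_roots' r
    omega
  intro i hi
  have h8 : q = C (q.eval 1) * X := sub_eq_zero.mp hr0
  rw [h8, coeff_C_mul, coeff_X, if_neg (by omega), mul_zero]

/-- Sparse solutions of the three-term relation do not exist. -/
theorem sparse {p : ℕ} [hp : Fact p.Prime] [CharP k p] (A : Finset ℕ) (n : ℕ) (hnp : n < p)
    (hA : ∀ i ∈ A, 2 ≤ i ∧ i + 2 ≤ n) (hsym : ∀ i ∈ A, n - i ∈ A) (v : ℕ → k)
    (hv : ∀ i ∈ A, v i ≠ 0)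
    (hrel : (X + 1) * ∑ i ∈ A, C (v i) * X ^ i =
      X * ∑ i ∈ A, C (v i) * (X + 1) ^ i + ∑ i ∈ A, C (v i) * (X ^ (n - i) * (X + 1) ^ i))
    (hne : A.Nonempty) :
    n ≤ 3 * ((3 * A.card - 1) * (3 * A.card - 2) / 2) + 2 := by
  classical
  set K := (3 * A.card - 1) * (3 * A.card - 2) / 2 with hK
  by_contra hcon
  push Not at hcon
  -- the index type
  set ea : Fin 3 × {x // x ∈ A} → ℕ := fun t => if t.1 = 0 then t.2.1 else if t.1 = 1 then 1 else n - t.2.1 with hea
  set eb : Fin 3 × {x // x ∈ A} → ℕ := fun t => if t.1 = 0 then 1 else t.2.1 with heb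
  set F : Fin 3 × {x // x ∈ A} → k[X] := fun t => X ^ (ea t) * (X + 1) ^ (eb t) with hF
  set c0 : Fin 3 × {x // x ∈ A} → k := fun t => if t.1 = 0 then v t.2.1 else - v t.2.1 with hc0
  have hcard : Fintype.card (Fin 3 × {x // x ∈ A}) = 3 * A.card := by
    rw [Fintype.card_prod, Fintype.card_fin, Fintype.card_coe]
  have hpe : ∀ t, ea t + eb t < p := by
    rintro ⟨t, i, hi⟩
    have := hA i hi
    simp only [hea, heb]
    split_ifs <;> omega
  have hsum : ∀ (c : Fin 3 × {x // x ∈ A} → k), ∑ t, c t • F t =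
      ∑ i : {x // x ∈ A}, (c (0, i) • (X ^ i.1 * (X + 1) : k[X]) + c (1, i) • (X * (X + 1) ^ i.1 : k[X])
        + c (2, i) • (X ^ (n - i.1) * (X + 1) ^ i.1 : k[X])) := by
    intro c
    rw [Fintype.sum_prod_type_right]
    refine Finset.sum_congr rfl (fun i _ => ?_)
    rw [Fin.sum_univ_three]
    simp [hF, hea, heb]
  have hrel0 : ∑ t, c0 t • F t = 0 := by
    rw [hsum]
    have h1 : ∀ i : {x // x ∈ A}, (c0 (0, i) • (X ^ i.1 * (X + 1) : k[X]) + c0 (1, i) • (X * (X + 1) ^ i.1 : k[X])
        + c0 (2, i) • (X ^ (n - i.1) * (X + 1) ^ i.1 : k[X])) =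
        (fun i : ℕ => (X + 1) * (C (v i) * X ^ i) - X * (C (v i) * (X + 1) ^ i) -
          C (v i) * (X ^ (n - i) * (X + 1) ^ i)) i.1 := by
      intro i
      simp only [hc0]
      simp [smul_eq_C_mul]
      ring
    rw [Finset.sum_congr rfl (fun i _ => h1 i), Finset.sum_coe_sort A
      (fun i : ℕ => (X + 1) * (C (v i) * X ^ i) - X * (C (v i) * (X + 1) ^ i) -
          C (v i) * (X ^ (n - i) * (X + 1) ^ i)), Finset.sum_sub_distrib, Finset.sum_sub_distrib,
      ← Finset.mul_sum, ← Finset.mul_sum, hrel]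
    ring
  -- Claim 1
  have claim1 : ∀ i ∈ A, i ≤ K + 1 ∨ n ≤ i + K + 1 := by
    intro i0 hi0
    by_contra hmid
    push Not at hmid
    obtain ⟨c, hc1, hc2, hc3⟩ := exists_min_relation F
      (LinearMap.proj (R := k) (φ := fun _ : Fin 3 × {x // x ∈ A} => k) ((2 : Fin 3), (⟨i0, hi0⟩ : {x // x ∈ A}))) c0 hrel0 (by
        simp only [LinearMap.proj_apply, hc0]
        simpa using hv i0 hi0)
    simp only [LinearMap.proj_apply] at hc2
    have hex : ∃ t : Fin 3 × {x // x ∈ A}, t.1 ≠ 2 ∧ c t ≠ 0 := by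
      by_contra hcon2
      push Not at hcon2
      have h2 := hc1
      rw [hsum] at h2
      have h3 : ∀ i : {x // x ∈ A}, (c (0, i) • (X ^ i.1 * (X + 1) : k[X]) + c (1, i) • (X * (X + 1) ^ i.1 : k[X])
        + c (2, i) • (X ^ (n - i.1) * (X + 1) ^ i.1 : k[X])) =
        (fun i : ℕ => (if h : i ∈ A then c (2, ⟨i, h⟩) else 0) • (X ^ (n - i) * (X + 1) ^ i : k[X])) i.1 := by
        intro i
        rw [hcon2 (0, i) (by simp), hcon2 (1, i) (by simp)]
        simp
      rw [Finset.sum_congr rfl (fun i _ => h3 i), Finset.sum_coe_sort A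
        (fun i : ℕ => (if h : i ∈ A then c (2, ⟨i, h⟩) else 0) • (X ^ (n - i) * (X + 1) ^ i : k[X]))] at h2
      have h4 := homog_indep A n (fun i hi => by have := hA i hi; omega) _ h2 i0 hi0
      rw [dif_pos hi0] at h4
      exact hc2 h4
    obtain ⟨⟨t, i⟩, ht, hct⟩ := hex
    have hi := hA i.1 i.2
    have hi0' := hA i0 hi0
    have ht' : t = 0 ∨ t = 1 := by
      by_contra h
      push Not at h
      exact ht (three t h.1 h.2)
    rcases ht' with rfl | rfl
    · have h5 := circuit_supp F ea eb (fun _ => rfl) hpe c hc1 hc3 (2, ⟨i0, hi0⟩) (0, i) (2, ⟨i0, hi0⟩) hc2 hct hc2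
      rw [hcard] at h5
      simp [hea, heb] at h5
      omega
    · have h5 := circuit_supp F ea eb (fun _ => rfl) hpe c hc1 hc3 (1, i) (2, ⟨i0, hi0⟩) (2, ⟨i0, hi0⟩) hct hc2 hc2
      rw [hcard] at h5
      simp [hea, heb] at h5
      omega
  -- Claim 2
  set low : Finset (Fin 3 × {x // x ∈ A}) := univ.filter (fun t => t.1 ≠ 2 ∧ t.2.1 ≤ K + 1) with hlow
  set φ : (Fin 3 × {x // x ∈ A} → k) →ₗ[k] k[X] :=
    ∑ t ∈ low, (LinearMap.proj (R := k) (φ := fun _ : Fin 3 × {x // x ∈ A} => k) t).smulRight (F t) with hφ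
  have hφa : ∀ c, φ c = ∑ t ∈ low, c t • F t := by
    intro c
    rw [hφ, LinearMap.sum_apply]
    rfl
  have claim2 : φ c0 = 0 := by
    by_contra hφ0
    obtain ⟨c, hc1, hc2, hc3⟩ := exists_min_relation F φ c0 hrel0 hφ0
    rw [hφa] at hc2
    obtain ⟨x, hx, hcx⟩ : ∃ x ∈ low, c x ≠ 0 := by
      by_contra hcon2
      push Not at hcon2
      exact hc2 (Finset.sum_eq_zero (fun t ht => by rw [hcon2 t ht, zero_smul]))
    obtain ⟨y, hy, hcy⟩ : ∃ y, y ∉ low ∧ c y ≠ 0 := by
      by_contra hcon2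
      push Not at hcon2
      apply hc2
      rw [← hc1]
      refine Finset.sum_subset (Finset.subset_univ low) (fun t _ ht => ?_)
      rw [hcon2 t ht, zero_smul]
    have h5 := circuit_supp F ea eb (fun _ => rfl) hpe c hc1 hc3 x x y hcx hcx hcy
    rw [hcard, ← hK] at h5
    rw [hlow, Finset.mem_filter] at hx hy
    obtain ⟨tx, ix⟩ := x
    obtain ⟨ty, iy⟩ := y
    simp only [Finset.mem_univ, true_and] at hx hy
    have hx2 : ea (tx, ix) + eb (tx, ix) ≤ K + 2 := by
      simp only [hea, heb]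
      have := hx.2
      have := hx.1
      have := hA ix.1 ix.2
      split_ifs with h6 h7
      · omega
      · omega
      · exact absurd (three tx h6 h7) hx.1
    have hy2 : n ≤ ea (ty, iy) + eb (ty, iy) + K := by
      simp only [hea, heb]
      have hAi := hA iy.1 iy.2
      have hcl := claim1 iy.1 iy.2
      split_ifs with h6 h7
      · subst h6
        have : ¬ (iy.1 ≤ K + 1) := fun h => hy ⟨by simp, h⟩
        omega
      · subst h7
        have : ¬ (iy.1 ≤ K + 1) := fun h => hy ⟨by simp, h⟩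
        omega
      · omega
    omega
  -- Claim 3
  set A0 := A.filter (fun i => i ≤ K + 1) with hA0
  have hA0ne : A0.Nonempty := by
    obtain ⟨i, hi⟩ := hne
    have hAi := hA i hi
    rcases claim1 i hi with h | h
    · exact ⟨i, Finset.mem_filter.mpr ⟨hi, h⟩⟩
    · exact ⟨n - i, Finset.mem_filter.mpr ⟨hsym i hi, by omega⟩⟩
  have hlowrel : ∑ i ∈ A0, v i • (X ^ i * (X + 1) : k[X]) = ∑ i ∈ A0, v i • (X * (X + 1) ^ i : k[X]) := by
    rw [hφa] at claim2
    have h6 : ∑ t ∈ low, c0 t • F t = ∑ t, (if t ∈ low then c0 t else 0) • F t := by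
      simp only [ite_smul, zero_smul]
      rw [Finset.sum_ite_mem, Finset.univ_inter]
    rw [h6, hsum] at claim2
    have h7 : ∀ i : {x // x ∈ A}, ((if ((0 : Fin 3), i) ∈ low then c0 (0, i) else 0) • (X ^ i.1 * (X + 1) : k[X]) +
        (if ((1 : Fin 3), i) ∈ low then c0 (1, i) else 0) • (X * (X + 1) ^ i.1 : k[X])
        + (if ((2 : Fin 3), i) ∈ low then c0 (2, i) else 0) • (X ^ (n - i.1) * (X + 1) ^ i.1 : k[X])) =
        (fun i : ℕ => if i ≤ K + 1 then (v i • (X ^ i * (X + 1) : k[X]) - v i • (X * (X + 1) ^ i : k[X])) else 0) i.1 := by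
      intro i
      simp only [hlow, Finset.mem_filter, Finset.mem_univ, true_and, hc0]
      by_cases h8 : i.1 ≤ K + 1
      · simp [h8, sub_eq_add_neg]
      · simp [h8]
    rw [Finset.sum_congr rfl (fun i _ => h7 i), Finset.sum_coe_sort A
      (fun i : ℕ => if i ≤ K + 1 then (v i • (X ^ i * (X + 1) : k[X]) - v i • (X * (X + 1) ^ i : k[X])) else 0),
      ← Finset.sum_filter, Finset.sum_sub_distrib] at claim2
    exact sub_eq_zero.mp claim2
  set q : k[X] := ∑ i ∈ A0, C (v i) * X ^ i with hq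
  have hqdeg : q.natDegree < p := by
    refine lt_of_le_of_lt (natDegree_sum_le_of_forall_le (n := n) _ _ (fun i hi => ?_)) hnp
    refine (natDegree_C_mul_X_pow_le _ _).trans ?_
    have := hA i (Finset.mem_of_mem_filter i hi)
    omega
  have hqe : ∀ z : ℕ, ((z : k) + 1) * q.eval (z : k) = z * q.eval ((z : k) + 1) := by
    intro z
    have h9 := congrArg (eval (z : k)) hlowrel
    simp only [eval_finsetSum, eval_smul, eval_mul, eval_pow, eval_X, eval_add, eval_one, smul_eq_mul] at h9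
    simp only [hq, eval_finsetSum, eval_mul, eval_C, eval_pow, eval_X]
    rw [Finset.mul_sum, Finset.mul_sum]
    calc ∑ i ∈ A0, ((z : k) + 1) * (v i * (z : k) ^ i) = ∑ i ∈ A0, v i * ((z : k) ^ i * ((z : k) + 1)) :=
          Finset.sum_congr rfl (fun i _ => by ring)
      _ = ∑ i ∈ A0, v i * ((z : k) * ((z : k) + 1) ^ i) := h9
      _ = _ := Finset.sum_congr rfl (fun i _ => by ring)
  have hfin := shift_invariant (p := p) q hqdeg hqe
  obtain ⟨i, hi⟩ := hA0ne
  have hiA := Finset.mem_of_mem_filter i hi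
  have h10 := hfin i (hA i hiA).1
  rw [hq, finsetSum_coeff] at h10
  simp only [coeff_C_mul, coeff_X_pow, mul_ite, mul_one, mul_zero] at h10
  rw [Finset.sum_ite_eq A0 i, if_pos hi] at h10
  exact hv i hiA h10

end Pool.Agent.W204.Reg
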