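import Mathlib
import Pool.Agent.W204.Reg.Sparse
import Pool.Agent.H332R2.Window

open Finset

namespace Pool.Agent.W204.Reg

open Pool.Agent.H332R2

variable {p : ℕ} [hp : Fact p.Prime]


/-- truncated Bernoulli series -/
noncomputable def bser (a : Polynomial (ZMod p)) : PowerSeries (Polynomial (ZMod p)) :=
  PowerSeries.mk fun j => if j + 1 < p then Polynomial.C (cc p j) * a ^ j else 0

/-- truncated exponential series -/
noncomputable def eser (a : Polynomial (ZMod p)) : PowerSeries (Polynomial (ZMod p)) :=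
  PowerSeries.mk fun j => if j < p then Polynomial.C (((j.factorial : ℕ) : ZMod p)⁻¹) * a ^ j else 0

lemma bser_rel (a : Polynomial (ZMod p)) :
    (PowerSeries.X : PowerSeries (Polynomial (ZMod p))) ^ p ∣
      bser a * (eser a - 1) - PowerSeries.C a * PowerSeries.X := by
  rw [PowerSeries.X_pow_dvd_iff]
  intro j hj
  have h1 : (PowerSeries.coeff j) (bser a * (eser a - 1)) =
      ∑ i ∈ range j, Polynomial.C (cc p i * (((j - i).factorial : ℕ) : ZMod p)⁻¹) * a ^ j := by
    rw [PowerSeries.coeff_mul, Finset.Nat.sum_antidiagonal_eq_sum_range_succ_mk, Finset.sum_range_succ]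
    have h2 : (PowerSeries.coeff (j - j)) (eser a - 1 : PowerSeries (Polynomial (ZMod p))) = 0 := by
      rw [Nat.sub_self, map_sub]
      simp [eser, hp.out.pos]
    rw [h2, mul_zero, add_zero]
    refine Finset.sum_congr rfl (fun i hi => ?_)
    rw [Finset.mem_range] at hi
    rw [map_sub, PowerSeries.coeff_one, if_neg (by omega), sub_zero]
    simp only [bser, eser, PowerSeries.coeff_mk]
    rw [if_pos (by omega), if_pos (by omega), Polynomial.C_mul]
    have : a ^ j = a ^ i * a ^ (j - i) := by rw [← pow_add]; congr 1; omega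
    rw [this]
    ring
  rw [map_sub, h1, ← Finset.sum_mul, ← map_sum]
  rcases Nat.lt_or_ge j 2 with h | h
  · rcases Nat.eq_zero_or_pos j with h0 | h0
    · subst h0; simp
    · have : j = 1 := by omega
      subst this
      simp [cc_zero]
  · rw [cc_rec h (by omega)]
    have : PowerSeries.coeff j (PowerSeries.C a * PowerSeries.X : PowerSeries (Polynomial (ZMod p))) = 0 := by
      rw [PowerSeries.coeff_C_mul, PowerSeries.coeff_X, if_neg (by omega), mul_zero]
    rw [this]
    simp

lemma eser_rel (a b : Polynomial (ZMod p)) :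
    (PowerSeries.X : PowerSeries (Polynomial (ZMod p))) ^ p ∣ eser a * eser b - eser (a + b) := by
  rw [PowerSeries.X_pow_dvd_iff]
  intro j hj
  rw [map_sub, sub_eq_zero, PowerSeries.coeff_mul, Finset.Nat.sum_antidiagonal_eq_sum_range_succ_mk]
  simp only [eser, PowerSeries.coeff_mk]
  rw [if_pos hj, add_pow, Finset.mul_sum]
  refine Finset.sum_congr rfl (fun i hi => ?_)
  rw [Finset.mem_range] at hi
  rw [if_pos (by omega), if_pos (by omega)]
  have hij : i ≤ j := by omega
  have h6 := Nat.choose_mul_factorial_mul_factorial hij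
  have h7 : ((j.choose i : ℕ) : ZMod p) * ((i.factorial : ℕ) : ZMod p) * (((j - i).factorial : ℕ) : ZMod p)
      = ((j.factorial : ℕ) : ZMod p) := by exact_mod_cast congrArg (fun n : ℕ => (n : ZMod p)) h6
  have f1 := fact_ne_zero (p := p) (k := i) (by omega)
  have f2 := fact_ne_zero (p := p) (k := j - i) (by omega)
  have f3 := fact_ne_zero (p := p) (k := j) (by omega)
  have h8 : ((i.factorial : ℕ) : ZMod p)⁻¹ * (((j - i).factorial : ℕ) : ZMod p)⁻¹ =
      ((j.factorial : ℕ) : ZMod p)⁻¹ * ((j.choose i : ℕ) : ZMod p) := by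
    rw [← h7] at f3 ⊢
    have hch : ((j.choose i : ℕ) : ZMod p) ≠ 0 := by
      intro h0; rw [h0] at f3; simp at f3
    field_simp
  have h9 : ((j.choose i : ℕ) : Polynomial (ZMod p)) = Polynomial.C ((j.choose i : ℕ) : ZMod p) := by simp
  rw [h9]
  calc Polynomial.C (((i.factorial : ℕ) : ZMod p)⁻¹) * a ^ i *
        (Polynomial.C ((((j - i).factorial : ℕ) : ZMod p)⁻¹) * b ^ (j - i))
      = Polynomial.C (((i.factorial : ℕ) : ZMod p)⁻¹ * (((j - i).factorial : ℕ) : ZMod p)⁻¹) *
        (a ^ i * b ^ (j - i)) := by rw [Polynomial.C_mul]; ring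
    _ = _ := by rw [h8, Polynomial.C_mul]; ring

lemma main_rel (a b : Polynomial (ZMod p)) :
    (PowerSeries.X : PowerSeries (Polynomial (ZMod p))) ^ p ∣
      PowerSeries.X * (PowerSeries.C (a + b) * (bser a * bser b) -
        bser (a + b) * (PowerSeries.C (a * b) * PowerSeries.X + PowerSeries.C a * bser b +
          PowerSeries.C b * bser a)) := by
  obtain ⟨u, hu⟩ := bser_rel a
  obtain ⟨w, hw⟩ := bser_rel b
  obtain ⟨t, ht⟩ := bser_rel (a + b)
  obtain ⟨s, hs⟩ := eser_rel a b
  set Y : PowerSeries (Polynomial (ZMod p)) := PowerSeries.X ^ p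
  refine ⟨bser (a + b) * (PowerSeries.C a * PowerSeries.X * w + u * (PowerSeries.C b * PowerSeries.X)
    + u * Y * w + u * bser b + w * bser a) - s * (bser (a + b) * bser a * bser b) - t * (bser a * bser b), ?_⟩
  have hu' : Y * u = bser a * (eser a - 1) - PowerSeries.C a * PowerSeries.X := hu.symm
  have hw' : Y * w = bser b * (eser b - 1) - PowerSeries.C b * PowerSeries.X := hw.symm
  have ht' : Y * t = bser (a + b) * (eser (a + b) - 1) - PowerSeries.C (a + b) * PowerSeries.X := ht.symm
  have hs' : Y * s = eser a * eser b - eser (a + b) := hs.symm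
  have e1 : Y * (bser (a + b) * (PowerSeries.C a * PowerSeries.X * w + u * (PowerSeries.C b * PowerSeries.X)
    + u * Y * w + u * bser b + w * bser a) - s * (bser (a + b) * bser a * bser b) - t * (bser a * bser b)) =
    bser (a + b) * (PowerSeries.C a * PowerSeries.X * (Y * w) + (Y * u) * (PowerSeries.C b * PowerSeries.X)
    + (Y * u) * (Y * w) + (Y * u) * bser b + (Y * w) * bser a) - (Y * s) * (bser (a + b) * bser a * bser b)
      - (Y * t) * (bser a * bser b) := by ring
  rw [e1, hu', hw', ht', hs']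
  have h1 : (PowerSeries.C (a * b) : PowerSeries (Polynomial (ZMod p))) = PowerSeries.C a * PowerSeries.C b := by
    rw [map_mul]
  rw [h1]
  ring

lemma cc_odd {j : ℕ} (h : Odd j) (h3 : 3 ≤ j) : cc p j = 0 := by
  unfold cc
  rw [bernoulli_eq_zero_of_odd h (by omega)]
  simp

lemma poly_rel {n : ℕ} (hn4 : 4 ≤ n) (hne : Even n) (hnp : n + 3 ≤ p) :
    ((Polynomial.X : Polynomial (ZMod p)) + 1) *
      ∑ i ∈ range (n + 1), Polynomial.C (cc p i * cc p (n - i)) * Polynomial.X ^ i =
    Polynomial.X * ∑ i ∈ range (n + 1), Polynomial.C (cc p i * cc p (n - i)) * (Polynomial.X + 1) ^ i +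
      ∑ i ∈ range (n + 1), Polynomial.C (cc p i * cc p (n - i)) *
        (Polynomial.X ^ (n - i) * (Polynomial.X + 1) ^ i) := by
  have h := main_rel (Polynomial.X : Polynomial (ZMod p)) 1
  rw [PowerSeries.X_pow_dvd_iff] at h
  have h1 := h (n + 1) (by omega)
  rw [PowerSeries.coeff_succ_X_mul, map_sub, sub_eq_zero, PowerSeries.coeff_C_mul] at h1
  have hprod : ∀ a b : Polynomial (ZMod p), (PowerSeries.coeff n) (bser a * bser b) =
      ∑ i ∈ range (n + 1), Polynomial.C (cc p i * cc p (n - i)) * (a ^ i * b ^ (n - i)) := by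
    intro a b
    rw [PowerSeries.coeff_mul, Finset.Nat.sum_antidiagonal_eq_sum_range_succ_mk]
    refine Finset.sum_congr rfl (fun i hi => ?_)
    rw [Finset.mem_range] at hi
    simp only [bser, PowerSeries.coeff_mk]
    rw [if_pos (by omega), if_pos (by omega), Polynomial.C_mul]
    ring
  have h2 : (PowerSeries.coeff n) (bser ((Polynomial.X : Polynomial (ZMod p)) + 1) *
      (PowerSeries.C ((Polynomial.X : Polynomial (ZMod p)) * 1) * PowerSeries.X +
        PowerSeries.C (Polynomial.X : Polynomial (ZMod p)) * bser 1 +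
          PowerSeries.C (1 : Polynomial (ZMod p)) * bser Polynomial.X)) =
      Polynomial.X * ∑ i ∈ range (n + 1), Polynomial.C (cc p i * cc p (n - i)) * (Polynomial.X + 1) ^ i +
      ∑ i ∈ range (n + 1), Polynomial.C (cc p i * cc p (n - i)) *
        (Polynomial.X ^ (n - i) * (Polynomial.X + 1) ^ i) := by
    rw [mul_add, mul_add, map_add, map_add]
    have e1 : (PowerSeries.coeff n) (bser ((Polynomial.X : Polynomial (ZMod p)) + 1) *
      (PowerSeries.C ((Polynomial.X : Polynomial (ZMod p)) * 1) * PowerSeries.X)) = 0 := by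
      rw [← mul_assoc]
      obtain ⟨n', rfl⟩ : ∃ n', n = n' + 1 := ⟨n - 1, by omega⟩
      rw [PowerSeries.coeff_succ_mul_X, mul_comm, PowerSeries.coeff_C_mul]
      simp only [bser, PowerSeries.coeff_mk]
      rw [if_pos (by omega), cc_odd (by
        obtain ⟨r, hr⟩ := hne
        exact ⟨r - 1, by omega⟩) (by omega)]
      simp
    have e2 : (PowerSeries.coeff n) (bser ((Polynomial.X : Polynomial (ZMod p)) + 1) *
      (PowerSeries.C (Polynomial.X : Polynomial (ZMod p)) * bser 1)) = Polynomial.X *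
        ∑ i ∈ range (n + 1), Polynomial.C (cc p i * cc p (n - i)) * (Polynomial.X + 1) ^ i := by
      rw [mul_left_comm, PowerSeries.coeff_C_mul, hprod]
      simp
    have e3 : (PowerSeries.coeff n) (bser ((Polynomial.X : Polynomial (ZMod p)) + 1) *
      (PowerSeries.C (1 : Polynomial (ZMod p)) * bser Polynomial.X)) =
        ∑ i ∈ range (n + 1), Polynomial.C (cc p i * cc p (n - i)) *
        (Polynomial.X ^ (n - i) * (Polynomial.X + 1) ^ i) := by
      rw [mul_left_comm, PowerSeries.coeff_C_mul, one_mul, hprod]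
      refine Finset.sum_congr rfl (fun i _ => by ring)
    rw [e1, e2, e3, zero_add]
  rw [h2, hprod] at h1
  rw [← h1]
  simp

/-- popular sums: for an irregular index `2m`, the number of `k` with `2k`, `2(m-k)` both regular is
zero or at least of order `√m` -/
theorem popular {m : ℕ} (hm : 2 ≤ m) (hmp : 2 * m + 3 ≤ p) (hirr : cc p (2 * m) = 0) (Rm : Finset ℕ)
    (hR : ∀ k, k ∈ Rm ↔ 1 ≤ k ∧ k < m ∧ cc p (2 * k) ≠ 0 ∧ cc p (2 * (m - k)) ≠ 0)
    (hne : Rm.Nonempty) :
    2 * m ≤ 3 * ((3 * Rm.card - 1) * (3 * Rm.card - 2) / 2) + 2 := by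
  classical
  set A : Finset ℕ := Rm.image (fun k => 2 * k) with hA
  have hcard : A.card = Rm.card := by
    rw [hA, Finset.card_image_of_injective _ (fun a b h => by simpa using h)]
  rw [← hcard]
  set v : ℕ → ZMod p := fun i => cc p i * cc p (2 * m - i) with hv
  have hmem : ∀ i, i ∈ A → i ∈ range (2 * m + 1) ∧ v i ≠ 0 ∧ 2 ≤ i ∧ i + 2 ≤ 2 * m := by
    intro i hi
    rw [hA, Finset.mem_image] at hi
    obtain ⟨k, hk, rfl⟩ := hi
    rw [hR] at hk
    refine ⟨Finset.mem_range.mpr (by omega), ?_, by omega, by omega⟩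
    rw [hv]
    simp only
    have : 2 * m - 2 * k = 2 * (m - k) := by omega
    rw [this]
    exact mul_ne_zero hk.2.2.1 hk.2.2.2
  have hzero : ∀ i ∈ range (2 * m + 1), i ∉ A → v i = 0 := by
    intro i hi hiA
    rw [Finset.mem_range] at hi
    rcases Nat.even_or_odd' i with ⟨k, hk | hk⟩
    · rcases Nat.eq_zero_or_pos k with h0 | h0
      · subst h0; subst hk
        simp only [hv, mul_zero, Nat.sub_zero]
        rw [hirr, mul_zero]
      · rcases Nat.lt_or_ge k m with h1 | h1
        · by_contra hne0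
          apply hiA
          rw [hA, Finset.mem_image]
          refine ⟨k, (hR k).mpr ⟨h0, h1, ?_, ?_⟩, hk.symm⟩
          · intro h2; apply hne0; rw [hv]; simp only; rw [hk, h2, zero_mul]
          · intro h2; apply hne0; rw [hv]; simp only
            have : 2 * m - i = 2 * (m - k) := by omega
            rw [this, h2, mul_zero]
        · have : i = 2 * m := by omega
          subst this
          simp only [hv]
          rw [hirr, zero_mul]
    · rcases Nat.lt_or_ge i 3 with h1 | h1
      · have h2 : cc p (2 * m - i) = 0 := cc_odd ⟨m - 1, by omega⟩ (by omega)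
        simp only [hv]
        rw [h2, mul_zero]
      · simp only [hv]
        rw [cc_odd ⟨k, hk⟩ h1, zero_mul]
  have hsub : A ⊆ range (2 * m + 1) := fun i hi => (hmem i hi).1
  have hrel := poly_rel (p := p) (n := 2 * m) (by omega) ⟨m, by ring⟩ hmp
  have hs : ∀ f : ℕ → Polynomial (ZMod p), ∑ i ∈ range (2 * m + 1), Polynomial.C (cc p i * cc p (2 * m - i)) * f i =
      ∑ i ∈ A, Polynomial.C (v i) * f i := by
    intro f
    symm
    refine Finset.sum_subset hsub (fun i hi hiA => ?_)
    rw [hzero i hi hiA]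
    simp
  rw [hs, hs, hs] at hrel
  refine sparse (p := p) A (2 * m) (by omega) (fun i hi => (hmem i hi).2.2) ?_ v
    (fun i hi => (hmem i hi).2.1) hrel (hne.image _)
  intro i hi
  rw [hA, Finset.mem_image] at hi ⊢
  obtain ⟨k, hk, rfl⟩ := hi
  rw [hR] at hk
  refine ⟨m - k, (hR _).mpr ⟨by omega, by omega, hk.2.2.2, ?_⟩, by omega⟩
  have : m - (m - k) = k := by omega
  rw [this]
  exact hk.2.2.1

end Pool.Agent.W204.Reg
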