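import Mathlib

open Finset

namespace Pool.Agent.W204.Reg

/-- the abstract counting argument -/
theorem count_main (S : ℕ → Prop) [DecidablePred S] (M : ℕ) (h1 : S 1)
    (hgap : ∀ a r, 1 ≤ r → 2 * a ≤ (r + 1) * (2 * r + 1) → a + r ≤ M → ∃ m, a < m ∧ m ≤ a + r ∧ S m)
    (hpop : ∀ m, 2 ≤ m → m ≤ M → ¬ S m → ∀ R : Finset ℕ,
      (∀ k, k ∈ R ↔ 1 ≤ k ∧ k < m ∧ S k ∧ S (m - k)) → R.Nonempty → 4 * m ≤ 27 * R.card ^ 2) :
    ∀ K, 1 ≤ K → K ≤ M → K ^ 2 ≤ (11 * ((Icc 1 K).filter S).card) ^ 3 := by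
  intro K
  induction K using Nat.strong_induction_on with
  | _ K ih =>
  intro hK1 hKM
  set N := ((Icc 1 K).filter S).card with hN
  rcases Nat.lt_or_ge K 2 with hK2 | hK2
  · have : K = 1 := by omega
    subst this
    have hNpos : 1 ≤ N := by
      rw [hN]
      exact Finset.card_pos.mpr ⟨1, Finset.mem_filter.mpr ⟨Finset.mem_Icc.mpr ⟨le_rfl, le_rfl⟩, h1⟩⟩
    have : 1 ≤ 11 * N := by omega
    calc 1 ^ 2 = 1 ^ 3 := by norm_num
      _ ≤ _ := Nat.pow_le_pow_left this 3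
  rcases Nat.lt_or_ge (11 * N) K with hNK | hNK
  swap
  · calc K ^ 2 ≤ K ^ 3 := Nat.pow_le_pow_right (by omega) (by norm_num)
      _ ≤ _ := Nat.pow_le_pow_left hNK 3
  -- the point a0
  set H := K / 2 with hH
  have hAne : ((Icc 1 H).filter S).Nonempty :=
    ⟨1, Finset.mem_filter.mpr ⟨Finset.mem_Icc.mpr ⟨le_rfl, by omega⟩, h1⟩⟩
  set a0 := ((Icc 1 H).filter S).max' hAne with ha0
  have ha0mem := Finset.max'_mem _ hAne
  rw [← ha0, Finset.mem_filter, Finset.mem_Icc] at ha0mem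
  obtain ⟨⟨ha01, ha0H⟩, ha0S⟩ := ha0mem
  have ha0max : ∀ m, a0 < m → m ≤ H → ¬ S m := by
    intro m hm1 hm2 hS
    have : m ≤ a0 := Finset.le_max' ((Icc 1 H).filter S) m
      (Finset.mem_filter.mpr ⟨Finset.mem_Icc.mpr ⟨by omega, hm2⟩, hS⟩)
    omega
  have ha0K : 2 * K ≤ 5 * (a0 + 1) := by
    rcases Nat.eq_or_lt_of_le ha0H with h | h
    · omega
    · obtain ⟨g, hg⟩ : ∃ g, H = a0 + g := ⟨H - a0, by omega⟩
      have hg2 : (g + 1) * (2 * g + 1) < 2 * a0 := by
        by_contra hcon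
        push Not at hcon
        obtain ⟨m, hm1, hm2, hm3⟩ := hgap a0 g (by omega) hcon (by omega)
        exact ha0max m hm1 (by omega) hm3
      have h3 : K ≤ 2 * H + 1 := by omega
      zify at *
      nlinarith [sq_nonneg ((g : ℤ) - 2)]
  -- real numbers
  set s : ℝ := Real.sqrt K with hs
  have hKpos : (0 : ℝ) < K := by exact_mod_cast (by omega : 0 < K)
  have hspos : 0 < s := Real.sqrt_pos.mpr hKpos
  have hs2 : s ^ 2 = K := Real.sq_sqrt hKpos.le
  set t : ℝ := (1331 * s) ^ ((1 : ℝ) / 3) with ht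
  have htpos : 0 < t := Real.rpow_pos_of_pos (by positivity) _
  have ht3 : t ^ 3 = 1331 * s := by
    rw [ht, ← Real.rpow_natCast, ← Real.rpow_mul (by positivity)]
    norm_num
  have hfj : ∀ j : ℕ, 1 ≤ j → j ^ 2 < K → (j : ℝ) ≤ t * (((Icc 1 j).filter S).card : ℝ) := by
    intro j hj hjK
    have hjlt : j < K := by nlinarith
    have h2 := ih j hjlt hj (by omega)
    set f := ((Icc 1 j).filter S).card
    have h3 : (j : ℝ) ^ 2 ≤ 1331 * (f : ℝ) ^ 3 := by
      have : ((j ^ 2 : ℕ) : ℝ) ≤ (((11 * f) ^ 3 : ℕ) : ℝ) := by exact_mod_cast h2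
      push_cast at this
      nlinarith
    have hjs : (j : ℝ) ≤ s := by
      apply Real.le_sqrt_of_sq_le
      exact_mod_cast hjK.le
    have h4 : (j : ℝ) ^ 3 ≤ (t * f) ^ 3 := by
      rw [mul_pow, ht3]
      have : (j : ℝ) ^ 3 ≤ s * (j : ℝ) ^ 2 := by
        have h5 : (0 : ℝ) ≤ (j : ℝ) ^ 2 := by positivity
        nlinarith
      nlinarith
    exact le_of_pow_le_pow_left₀ (by norm_num) (by positivity) h4
  -- the main covering claim
  set Q : ℕ → Prop := fun m => ∃ k, 1 ≤ k ∧ k < m ∧ S k ∧ S (m - k) with hQ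
  classical
  have hcov : ∀ n, a0 ≤ n → n ≤ K →
      (((Ioc a0 n).filter (fun m => ¬ S m)).card : ℝ) ≤
        t * (((Ioc a0 n).filter (fun m => ¬ S m ∧ Q m)).card : ℝ) := by
    intro n
    induction n using Nat.strong_induction_on with
    | _ n ihn =>
    intro hn1 hn2
    rcases Nat.eq_or_lt_of_le hn1 with h | h
    · subst h; simp
    by_cases hSn : S n
    · have h2 := ihn (n - 1) (by omega) (by omega) (by omega)
      have e : Ioc a0 n = insert n (Ioc a0 (n - 1)) := by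
        ext x; simp only [Finset.mem_Ioc, Finset.mem_insert]; omega
      rw [e, Finset.filter_insert, Finset.filter_insert, if_neg (by simpa using hSn), if_neg (by simp [hSn])]
      exact h2
    · have hAne2 : ((Icc a0 n).filter S).Nonempty :=
        ⟨a0, Finset.mem_filter.mpr ⟨Finset.mem_Icc.mpr ⟨le_rfl, hn1⟩, ha0S⟩⟩
      set a := ((Icc a0 n).filter S).max' hAne2 with ha
      have hamem := Finset.max'_mem _ hAne2
      rw [← ha, Finset.mem_filter, Finset.mem_Icc] at hamem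
      obtain ⟨⟨haa0, han⟩, haS⟩ := hamem
      have hamax : ∀ m, a < m → m ≤ n → ¬ S m := by
        intro m hm1 hm2 hS
        have : m ≤ a := Finset.le_max' ((Icc a0 n).filter S) m
          (Finset.mem_filter.mpr ⟨Finset.mem_Icc.mpr ⟨by omega, hm2⟩, hS⟩)
        omega
      have hane : a ≠ n := by rintro h3; rw [h3] at haS; exact hSn haS
      obtain ⟨j, hj⟩ : ∃ j, n = a + j := ⟨n - a, by omega⟩
      have hj1 : 1 ≤ j := by omega
      have hjK : j ^ 2 < K := by
        have h3 : (j + 1) * (2 * j + 1) < 2 * a := by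
          by_contra hcon
          push Not at hcon
          obtain ⟨m, hm1, hm2, hm3⟩ := hgap a j hj1 hcon (by omega)
          exact hamax m hm1 (by omega) hm3
        nlinarith
      have h2 := ihn a (by omega) haa0 (by omega)
      have h5 := hfj j hj1 hjK
      have e : Ioc a0 n = Ioc a0 a ∪ Ioc a n := by
        rw [Finset.Ioc_union_Ioc_eq_Ioc haa0 han]
      have hdisj : Disjoint (Ioc a0 a) (Ioc a n) := by
        rw [Finset.disjoint_left]
        intro x hx hx'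
        rw [Finset.mem_Ioc] at hx hx'
        omega
      have hU : ((Ioc a0 n).filter (fun m => ¬ S m)).card ≤ ((Ioc a0 a).filter (fun m => ¬ S m)).card + j := by
        rw [e, Finset.filter_union]
        refine (Finset.card_union_le _ _).trans (Nat.add_le_add_left ?_ _)
        refine (Finset.card_filter_le _ _).trans ?_
        rw [Nat.card_Ioc]; omega
      have hV : ((Ioc a0 a).filter (fun m => ¬ S m ∧ Q m)).card + ((Icc 1 j).filter S).card ≤
          ((Ioc a0 n).filter (fun m => ¬ S m ∧ Q m)).card := by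
        rw [e, Finset.filter_union, Finset.card_union_of_disjoint
          (Finset.disjoint_filter_filter hdisj)]
        refine Nat.add_le_add_left ?_ _
        refine Finset.card_le_card_of_injOn (fun x => a + x) ?_ (fun x _ y _ hxy => by simpa using hxy)
        intro x hx
        simp only [Finset.coe_filter, Set.mem_ofPred_eq, Finset.mem_Icc, Finset.mem_Ioc] at hx ⊢
        refine ⟨by omega, hamax _ (by omega) (by omega), x, by omega, by omega, hx.2, ?_⟩
        have : a + x - x = a := by omega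
        rw [this]; exact haS
      have hU' : (((Ioc a0 n).filter (fun m => ¬ S m)).card : ℝ) ≤
          (((Ioc a0 a).filter (fun m => ¬ S m)).card : ℝ) + j := by exact_mod_cast hU
      have hV' : (((Ioc a0 a).filter (fun m => ¬ S m ∧ Q m)).card : ℝ) + (((Icc 1 j).filter S).card : ℝ) ≤
          (((Ioc a0 n).filter (fun m => ¬ S m ∧ Q m)).card : ℝ) := by exact_mod_cast hV
      calc (((Ioc a0 n).filter (fun m => ¬ S m)).card : ℝ)
          ≤ t * (((Ioc a0 a).filter (fun m => ¬ S m ∧ Q m)).card : ℝ) + t * (((Icc 1 j).filter S).card : ℝ) := by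
            linarith
        _ = t * ((((Ioc a0 a).filter (fun m => ¬ S m ∧ Q m)).card : ℝ) + (((Icc 1 j).filter S).card : ℝ)) := by ring
        _ ≤ _ := mul_le_mul_of_nonneg_left hV' htpos.le
  have hcovK := hcov K (by omega) le_rfl
  -- lower bound for U
  have hU : K ≤ 2 * ((Ioc a0 K).filter (fun m => ¬ S m)).card + 2 * N := by
    have h2 := Finset.card_filter_add_card_filter_not (s := Ioc a0 K) (fun m => S m)
    rw [Nat.card_Ioc] at h2
    have h3 : ((Ioc a0 K).filter (fun m => S m)).card ≤ N := by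
      rw [hN]
      refine Finset.card_le_card (fun x hx => ?_)
      rw [Finset.mem_filter, Finset.mem_Ioc] at hx
      exact Finset.mem_filter.mpr ⟨Finset.mem_Icc.mpr ⟨by omega, by omega⟩, hx.2⟩
    omega
  -- pairs
  set V := (Ioc a0 K).filter (fun m => ¬ S m ∧ Q m) with hVdef
  set SS := (Icc 1 K).filter S with hSS
  have hpairs : ∀ r : ℝ, (∀ m ∈ V, r ≤ (((Icc 1 (m - 1)).filter (fun k => S k ∧ S (m - k))).card : ℝ)) →
      (V.card : ℝ) * r ≤ (N : ℝ) ^ 2 := by
    intro r hr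
    set PP := (SS ×ˢ SS).filter (fun x => x.1 + x.2 ∈ V) with hPP
    have h2 : PP.card ≤ N ^ 2 := by
      refine (Finset.card_filter_le _ _).trans ?_
      rw [Finset.card_product, sq]
    have h3 : PP.card = ∑ m ∈ V, (PP.filter (fun x => x.1 + x.2 = m)).card :=
      Finset.card_eq_sum_card_fiberwise (fun x hx => by
        have hx' := Finset.mem_coe.mp hx
        rw [hPP, Finset.mem_filter] at hx'
        exact hx'.2)
    have h4 : ∀ m ∈ V, ((Icc 1 (m - 1)).filter (fun k => S k ∧ S (m - k))).card ≤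
        (PP.filter (fun x => x.1 + x.2 = m)).card := by
      intro m hm
      have hm' := hm
      rw [hVdef, Finset.mem_filter, Finset.mem_Ioc] at hm'
      refine Finset.card_le_card_of_injOn (fun k => (k, m - k)) ?_ (fun x _ y _ hxy => by
        simpa using (Prod.mk.inj hxy).1)
      intro k hk
      simp only [Finset.coe_filter, Set.mem_ofPred_eq, Finset.mem_Icc] at hk
      simp only [Finset.coe_filter, Set.mem_ofPred_eq, hPP, hSS, Finset.mem_filter, Finset.mem_product,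
        Finset.mem_Icc]
      have hkm : k + (m - k) = m := by omega
      refine ⟨⟨⟨⟨⟨by omega, by omega⟩, hk.2.1⟩, ⟨⟨by omega, by omega⟩, hk.2.2⟩⟩, ?_⟩, hkm⟩
      rw [hkm]; exact hm
    have h5 : (V.card : ℝ) * r ≤ ∑ m ∈ V, ((PP.filter (fun x => x.1 + x.2 = m)).card : ℝ) := by
      rw [← nsmul_eq_mul, ← Finset.sum_const]
      refine Finset.sum_le_sum (fun m hm => (hr m hm).trans ?_)
      exact_mod_cast h4 m hm
    have h6 : (PP.card : ℝ) ≤ (N : ℝ) ^ 2 := by exact_mod_cast h2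
    rw [h3] at h6
    push_cast at h6
    exact h5.trans h6
  have hr : ∀ m ∈ V, 0.243 * s ≤ (((Icc 1 (m - 1)).filter (fun k => S k ∧ S (m - k))).card : ℝ) := by
    intro m hm
    rw [hVdef, Finset.mem_filter, Finset.mem_Ioc] at hm
    obtain ⟨⟨hm1, hm2⟩, hm3, k, hk1, hk2, hk3, hk4⟩ := hm
    have h2 := hpop m (by omega) (by omega) hm3 ((Icc 1 (m - 1)).filter (fun k => S k ∧ S (m - k))) (by
      intro k
      rw [Finset.mem_filter, Finset.mem_Icc]
      constructor
      · rintro ⟨⟨h3, h4⟩, h5, h6⟩; exact ⟨h3, by omega, h5, h6⟩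
      · rintro ⟨h3, h4, h5, h6⟩; exact ⟨⟨h3, by omega⟩, h5, h6⟩) ⟨k, by
      rw [Finset.mem_filter, Finset.mem_Icc]; exact ⟨⟨hk1, by omega⟩, hk3, hk4⟩⟩
    set Rc := ((Icc 1 (m - 1)).filter (fun k => S k ∧ S (m - k))).card
    have h3 : (4 : ℝ) * m ≤ 27 * (Rc : ℝ) ^ 2 := by exact_mod_cast h2
    have h4 : (2 : ℝ) * K ≤ 5 * m := by
      have : 2 * K ≤ 5 * m := by omega
      exact_mod_cast this
    have h5 : (0.243 * s) ^ 2 ≤ (Rc : ℝ) ^ 2 := by
      rw [mul_pow, hs2]; nlinarith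
    exact le_of_pow_le_pow_left₀ (by norm_num) (by positivity) h5
  have hfin := hpairs _ hr
  -- final inequality
  have hUr : (9 / 22 : ℝ) * K ≤ (((Ioc a0 K).filter (fun m => ¬ S m)).card : ℝ) := by
    have e1 : (K : ℝ) ≤ 2 * (((Ioc a0 K).filter (fun m => ¬ S m)).card : ℝ) + 2 * N := by exact_mod_cast hU
    have e2 : (11 : ℝ) * N ≤ K := by exact_mod_cast hNK.le
    linarith
  have hx : (9 / 22 : ℝ) * K ≤ t * (V.card : ℝ) := hUr.trans hcovK
  have hy : (0.0994 : ℝ) * s ^ 3 ≤ t * (N : ℝ) ^ 2 := by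
    have h2 : t * ((V.card : ℝ) * (0.243 * s)) ≤ t * (N : ℝ) ^ 2 := mul_le_mul_of_nonneg_left hfin htpos.le
    have h3 : (9 / 22 : ℝ) * K * (0.243 * s) ≤ t * (V.card : ℝ) * (0.243 * s) :=
      mul_le_mul_of_nonneg_right hx (by positivity)
    rw [← hs2] at h3
    have h4 : (0.0994 : ℝ) * s ^ 3 ≤ (9 / 22 : ℝ) * s ^ 2 * (0.243 * s) := by
      have : 0 < s ^ 3 := by positivity
      nlinarith
    linarith
  have hz : ((0.0994 : ℝ) * s ^ 3) ^ 3 ≤ (t * (N : ℝ) ^ 2) ^ 3 :=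
    pow_le_pow_left₀ (by positivity) hy 3
  have hz2 : (t * (N : ℝ) ^ 2) ^ 3 = 1331 * s * (N : ℝ) ^ 6 := by
    rw [mul_pow, ht3]; ring
  rw [hz2] at hz
  have hz3 : (0.0994 : ℝ) ^ 3 * s ^ 8 ≤ 1331 * (N : ℝ) ^ 6 := by
    have h2 : s * ((0.0994 : ℝ) ^ 3 * s ^ 8) ≤ s * (1331 * (N : ℝ) ^ 6) := by nlinarith
    exact le_of_mul_le_mul_left h2 hspos
  have hz4 : ((K : ℝ) ^ 2) ^ 2 ≤ (1331 * (N : ℝ) ^ 3) ^ 2 := by
    have h2 : s ^ 8 = ((K : ℝ) ^ 2) ^ 2 := by rw [← hs2]; ring
    rw [h2] at hz3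
    have h3 : (0 : ℝ) ≤ ((K : ℝ) ^ 2) ^ 2 := by positivity
    nlinarith
  have hz5 : (K : ℝ) ^ 2 ≤ 1331 * (N : ℝ) ^ 3 := le_of_pow_le_pow_left₀ (by norm_num) (by positivity) hz4
  have hz6 : ((K ^ 2 : ℕ) : ℝ) ≤ (((11 * N) ^ 3 : ℕ) : ℝ) := by
    push_cast
    nlinarith
  exact_mod_cast hz6

end Pool.Agent.W204.Reg
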