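import Mathlib
import Pool.Agent.W204.Reg.Bern
import Pool.Agent.W204.Reg.Count

open Finset

namespace Pool.Agent.W204.Reg

theorem popular_num (p : ℕ) (hp : p.Prime) : ∀ m : ℕ, 2 ≤ m → 2 * m + 3 ≤ p →
    (p : ℤ) ∣ (bernoulli (2 * m)).num →
      ∀ R : Finset ℕ, (∀ k, k ∈ R ↔ 1 ≤ k ∧ k < m ∧ ¬ ((p : ℤ) ∣ (bernoulli (2 * k)).num) ∧
          ¬ ((p : ℤ) ∣ (bernoulli (2 * (m - k))).num)) → R.Nonempty → 4 * m ≤ 27 * R.card ^ 2 := by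
  have : Fact p.Prime := ⟨hp⟩
  intro m hm hmp hirr R hR hne
  have hp3 : 3 ≤ p := by omega
  have h1 := Pool.Agent.W204.Reg.popular (p := p) hm hmp
    ((Pool.Agent.H332R2.cc_eq_zero_iff (by omega) hp3).mpr hirr) R (by
      intro k
      rw [hR]
      constructor
      · rintro ⟨h1, h2, h3, h4⟩
        refine ⟨h1, h2, ?_, ?_⟩
        · rw [Ne, Pool.Agent.H332R2.cc_eq_zero_iff (by omega) hp3]; exact h3
        · rw [Ne, Pool.Agent.H332R2.cc_eq_zero_iff (by omega) hp3]; exact h4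
      · rintro ⟨h1, h2, h3, h4⟩
        rw [Ne, Pool.Agent.H332R2.cc_eq_zero_iff (by omega) hp3] at h3 h4
        exact ⟨h1, h2, h3, h4⟩) hne
  have hpos : 1 ≤ R.card := Finset.card_pos.mpr hne
  obtain ⟨ρ, hρ⟩ : ∃ ρ, R.card = ρ + 1 := ⟨R.card - 1, by omega⟩
  rw [hρ] at h1 ⊢
  have e1 : 3 * (ρ + 1) - 1 = 3 * ρ + 2 := by omega
  have e2 : 3 * (ρ + 1) - 2 = 3 * ρ + 1 := by omega
  rw [e1, e2] at h1
  have h2 := Nat.div_mul_le_self ((3 * ρ + 2) * (3 * ρ + 1)) 2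
  nlinarith

end Pool.Agent.W204.Reg
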